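import Pool.Agent.H46Z.ThmC

/-!
MP_83b46e_ag, Q1 (Voisin's conjecture on zero-cycles): products of two curves, and quotients of
products of two curves by groups `(ℤ / 2) ^ r`.

* For all smooth projective curves `C₁`, `C₂` over `ℂ`, of genera `g₁`, `g₂`, all `n > g₁ g₂` and all
  zero-cycles `a_1, ..., a_n` on `C₁ × C₂` with principal images on `C₁` and on `C₂`, the alternating
  sum of the cycles `a_σ(1) × ... × a_σ(n)` is torsion in the Chow group of zero-cycles of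
  `(C₁ × C₂) ^ n`.
* If `G = (ℤ / 2) ^ r` acts on `C₁` and `C₂`, the same holds for `(C₁ × C₂) / G` if
  `n > ∑_χ g(C₁ / ker χ) g(C₂ / ker χ)`, the sum over the characters `χ` of `G`.
-/

set_option autoImplicit false

open FF

namespace Pool.Agent.Results.MP_83b46e_ag.ProductQuotients

open Pool.Agent.H46Z

theorem result :
    (∀ (F₁ F₂ : Type) [Field F₁] [Algebra ℂ F₁] [IsFF ℂ F₁] [Field F₂] [Algebra ℂ F₂] [IsFF ℂ F₂]
      (n : ℕ), genus F₁ * genus F₂ < n → AltTorsion (Place ℂ F₁ × Place ℂ F₂) n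
        fun a => Principal (a.mapDomain Prod.fst) ∧ Principal (a.mapDomain Prod.snd)) ∧
    (∀ (F₁ F₂ : Type) [Field F₁] [Algebra ℂ F₁] [IsFF ℂ F₁] [Field F₂] [Algebra ℂ F₂] [IsFF ℂ F₂]
      (r : ℕ) (ρ₁ : Signs r →* (F₁ ≃ₐ[ℂ] F₁)) (ρ₂ : Signs r →* (F₂ ≃ₐ[ℂ] F₂)) (n : ℕ),
      ∑ T : Finset (Fin r), quotGenus ρ₁ T * quotGenus ρ₂ T < n → AltTorsion (Quo ρ₁ ρ₂) n
        fun a => Principal (toC₁ ρ₁ ρ₂ a) ∧ Principal (toC₂ ρ₁ ρ₂ a)) := by
  refine ⟨?_, ?_⟩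
  · intro F₁ F₂ _ _ _ _ _ _ n hn a ha
    exact prod_int (by rwa [Fintype.card_fin]) a (fun i => (ha i).1) fun i => (ha i).2
  · intro F₁ F₂ _ _ _ _ _ _ r ρ₁ ρ₂ n hn a ha
    exact main_int ρ₁ ρ₂ (by rwa [Fintype.card_fin]) a ha

end Pool.Agent.Results.MP_83b46e_ag.ProductQuotients
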