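import Pool.Agent.H46Z.ThmB

/-!
MP_83b46e_ag, Q1 (Voisin's conjecture on zero-cycles): symmetric squares of curves and their
quotients by groups `(ℤ / 2) ^ r`.

* For every smooth projective curve `C` over `ℂ`, of genus `g`, all `n > g (g - 1) / 2` and all
  zero-cycles `a_1, ..., a_n` on the symmetric square `S` of `C` whose images
  `∑ a({x, y}) (x + y)` on `C` are principal, the alternating sum of the cycles
  `a_σ(1) × ... × a_σ(n)` is torsion in the Chow group of zero-cycles of `S ^ n`.
* If `G = (ℤ / 2) ^ r` acts on `C`, the same holds for `S / G` if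
  `n > ∑_χ g_χ (g_χ - 1) / 2`, where `g_χ` is the genus of `C / ker χ`, for the characters `χ` of `G`.
-/

set_option autoImplicit false

open FF

namespace Pool.Agent.Results.MP_83b46e_ag.SymmetricSquares

open Pool.Agent.H46Z

theorem result :
    (∀ (F : Type) [Field F] [Algebra ℂ F] [IsFF ℂ F] (n : ℕ), (genus F).choose 2 < n →
      AltTorsion (Sym2 (Place ℂ F)) n fun a => Principal (sumPts a)) ∧
    (∀ (F : Type) [Field F] [Algebra ℂ F] [IsFF ℂ F] (r : ℕ) (ρ : Signs r →* (F ≃ₐ[ℂ] F))
      (n : ℕ), ∑ T : Finset (Fin r), (quotGenus ρ T).choose 2 < n →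
      AltTorsion (SQuo ρ) n fun a => Principal (sumOrb ρ a)) := by
  refine ⟨?_, ?_⟩
  · intro F _ _ _ n hn a ha
    exact sym_int (by rwa [Fintype.card_fin]) a ha
  · intro F _ _ _ r ρ n hn a ha
    exact squo_int ρ (by rwa [Fintype.card_fin]) a ha

end Pool.Agent.Results.MP_83b46e_ag.SymmetricSquares
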